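import Pool.Agent.Lib.MP_adc574_ag_HA.HALat3
import Pool.Agent.Lib.MP_adc574_ag_DC.AHull

/-!
# HA: copy of the file AIrr1 of stream DC for `Ok0`, `ConR`
-/

set_option autoImplicit false
set_option linter.unusedSectionVars false

namespace MPadcHA

open MvPolynomial TensorProduct MPadcDC

universe u

section main

variable {κ : Type u} [Field κ] [CharZero κ] {Γ : Type} [Fintype Γ] [DecidableEq Γ] {V : Type u}
  [AddCommGroup V] [Module κ V] {K : Type u} [Field K] [Algebra (MvPolynomial Γ κ) K]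
  [IsFractionRing (MvPolynomial Γ κ) K] {H : Type u} [AddCommGroup H] [Module K H]
  [Module (MvPolynomial Γ κ) H] [IsScalarTower (MvPolynomial Γ κ) K H]
  {G : Cx κ Γ V} {m : ℕ} {P : Ideal (MvPolynomial Γ κ)} {k₀ : ℕ} {dK : Γ → Derivation ℤ K K}
  {nab : Γ → H →+ H} {c : V →+ H}

theorem principal (hG : G.Ok0) (hB : G.Bad m P k₀) (hC : ConR G m dK nab c) (hH : ∃ h : H, h ≠ 0) :
    ∃ π : MvPolynomial Γ κ, Prime π ∧ P = Ideal.span {π} := by

  have hPp := hB.prime
  obtain ⟨π, hπP, hπ⟩ := hPp.exists_mem_prime_of_ne_bot hB.ne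
  refine ⟨π, hπ, ?_⟩
  by_contra hne
  have hle : Ideal.span {π} ≤ P := (Ideal.span_singleton_le_iff_mem P).2 hπP
  obtain ⟨s, hsP, hs⟩ : ∃ s ∈ P, ¬ π ∣ s := by
    by_contra hcon
    push Not at hcon
    exact hne (le_antisymm (fun s hs => Ideal.mem_span_singleton.2 (hcon s hs)) hle)
  have hrel : IsRelPrime π s := (hπ.irreducible.isRelPrime_iff_not_dvd).2 hs
  have hfg : (MM G m c).FG := by
    refine hull (K := K) (EE_fg hG hC k₀) ?_
    intro x hx
    obtain ⟨k, hk⟩ := mem_MM hx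
    have hk' : x ∈ EE G m c (k₀ + k) := EE_mono (by omega) hk
    exact ⟨π ^ k, s ^ k, pow_ne_zero k hπ.ne_zero, hrel.pow,
      EE_kill_pow hG hB hC le_rfl k hπP hk', EE_kill_pow hG hB hC le_rfl k hsP hk'⟩
  have hMM := sub_zero hG hC (MM G m c) le_rfl (fun γ x hx => nab_MM hG hC γ hx) hfg
  obtain ⟨h, hh⟩ := hH
  apply hh
  have hsp := hC.span h
  have hsub : {y | ∃ k, ∃ x ∈ G.Vd (m + 1) k, c x = y} ⊆ ({0} : Set H) := by
    rintro y ⟨k, x, hx, rfl⟩
    have h1 : c x ∈ MM G m c := Submodule.subset_span ⟨k, x, hx, rfl⟩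
    rw [hMM] at h1
    exact h1
  have h2 := Submodule.span_mono hsub hsp
  rw [Submodule.span_zero_singleton] at h2
  exact h2

end main

end MPadcHA
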