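import Pool.Agent.Lib.MP_adc574_ag_HA.HAIrr2

/-!
# HA: copy of the file AIrr3 of stream DC for `Ok0`, `ConR`
-/

set_option autoImplicit false
set_option linter.unusedSectionVars false

namespace MPadcHA

open MvPolynomial TensorProduct MPadcDC

universe u

section main

variable {κ : Type u} [Field κ] [CharZero κ] {Γ : Type} [Fintype Γ] [DecidableEq Γ] {V : Type u}
  [AddCommGroup V] [Module κ V] {K : Type u} [Field K] [Algebra (MvPolynomial Γ κ) K]
  [IsFractionRing (MvPolynomial Γ κ) K] {H : Type u} [AddCommGroup H] [Module K H]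
  [Module (MvPolynomial Γ κ) H] [IsScalarTower (MvPolynomial Γ κ) K H]
  {G : Cx κ Γ V} {m : ℕ} {P : Ideal (MvPolynomial Γ κ)} {k₀ : ℕ} {dK : Γ → Derivation ℤ K K}
  {nab : Γ → H →+ H} {c : V →+ H}

theorem irr (hG : G.Ok0) (hB : G.Bad m P k₀) (hC : ConR G m dK nab c) (N : Submodule K H)
    (hst : ∀ γ, ∀ x ∈ N, nab γ x ∈ N) : N = ⊥ ∨ N = ⊤ := by
  by_cases hH : ∃ h : H, h ≠ 0
  swap
  · left
    rw [eq_bot_iff]
    intro x _
    by_contra hx
    exact hH ⟨x, fun h0 => hx (by rw [h0]; exact Submodule.zero_mem _)⟩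
  obtain ⟨π, hπ, hP⟩ := principal hG hB hC hH
  obtain ⟨γ₀, hγ, α, hα, hgen⟩ := hB.gen π hP
  have hPp : P.IsPrime := hB.prime
  -- the polynomials act through `K`
  have hsm : ∀ (r : MvPolynomial Γ κ), ∀ x ∈ N, r • x ∈ N := by
    intro r x hx
    have h1 : r • x = algebraMap (MvPolynomial Γ κ) K r • x := (algebraMap_smul K r x).symm
    rw [h1]
    exact N.smul_mem _ hx
  have hu : ∀ k, nab γ₀ (c ((G.mul γ₀)^[k] α)) = c ((G.mul γ₀)^[k + 1] α) := by
    intro k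
    rw [← nab_iter hG hC γ₀ hα k, ← nab_iter hG hC γ₀ hα (k + 1), Function.iterate_succ_apply']
  have hmem : ∀ k, (G.mul γ₀)^[k] α ∈ G.Vd (m + 1) (k₀ + k) := by
    intro k
    induction k with
    | zero => simpa using hα
    | succ k ih =>
      rw [Function.iterate_succ_apply']
      exact hG.mul_mem γ₀ (m + 1) (k₀ + k) _ ih
  have huE : ∀ k, c ((G.mul γ₀)^[k] α) ∈ EE G m c (k₀ + k) := fun k =>
    Submodule.subset_span ⟨k₀ + k, le_rfl, _, hmem k, rfl⟩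
  by_cases h1 : ∀ k, k₀ ≤ k → ∀ x ∈ N, x ∈ EE G m c (k + 1) → x ∈ lo P (EE G m c k)
  · exact Or.inl (irr_sub hG hB hC N hst le_rfl h1)
  right
  simp only [not_forall] at h1
  obtain ⟨k', hk', x, hxN, hxE, hxlo⟩ := h1
  obtain ⟨k, rfl⟩ := Nat.exists_eq_add_of_le hk'
  obtain ⟨s, r, hs, hsr⟩ := EE_gen (P := P) hG hC (hgen k) hPp hxE
  have hr : r ∉ P := by
    intro hrP
    have h2 : r • c ((G.mul γ₀)^[k + 1] α) ∈ EE G m c (k₀ + k) :=
      EE_kill hG hB hC (Nat.le_add_right k₀ k) hrP (huE (k + 1))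
    apply hxlo
    refine ⟨s, hs, ?_⟩
    have h3 := Submodule.add_mem _ hsr h2
    rwa [sub_add_cancel] at h3
  have claim : ∀ i, ∃ n ∈ N, ∃ r : MvPolynomial Γ κ, r ∉ P ∧
      n - r • c ((G.mul γ₀)^[k + i + 1] α) ∈ EE G m c (k₀ + k + i) := by
    intro i
    induction i with
    | zero => exact ⟨s • x, hsm s x hxN, r, hr, hsr⟩
    | succ i ih =>
      obtain ⟨n, hn, r₁, hr₁, h2⟩ := ih
      refine ⟨nab γ₀ n, hst γ₀ n hn, r₁, hr₁, ?_⟩
      have h3 := nab_EE hG hC γ₀ h2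
      rw [map_sub, nab_smul hC, hu] at h3
      have h4 : pderiv γ₀ r₁ • c ((G.mul γ₀)^[k + i + 1] α) ∈ EE G m c (k₀ + k + i + 1) := by
        refine Submodule.smul_mem _ _ ?_
        have h5 := huE (k + i + 1)
        rwa [show k₀ + (k + i + 1) = k₀ + k + i + 1 by omega] at h5
      have h6 := Submodule.add_mem _ h3 h4
      have h7 : nab γ₀ n - (pderiv γ₀ r₁ • c ((G.mul γ₀)^[k + i + 1] α)
          + r₁ • c ((G.mul γ₀)^[k + i + 1 + 1] α)) + pderiv γ₀ r₁ • c ((G.mul γ₀)^[k + i + 1] α)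
          = nab γ₀ n - r₁ • c ((G.mul γ₀)^[k + i + 1 + 1] α) := by abel
      rw [h7] at h6
      exact h6
  refine irr_quot hG hB hC N hst (Nat.le_add_right k₀ k) ?_
  intro l hl y hy
  obtain ⟨i, rfl⟩ := Nat.exists_eq_add_of_le hl
  obtain ⟨n, hn, r₁, hr₁, h2⟩ := claim i
  have hy' : y ∈ EE G m c (k₀ + (k + i) + 1) := by
    rwa [show k₀ + (k + i) + 1 = k₀ + k + i + 1 by omega]
  obtain ⟨s', r', hs', h3⟩ := EE_gen (P := P) hG hC (hgen (k + i)) hPp hy'
  rw [show k₀ + (k + i) = k₀ + k + i by omega] at h3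
  have hrs : r₁ * s' ∉ P := fun h4 => (hPp.mem_or_mem h4).elim hr₁ hs'
  have hne : r₁ * s' ≠ 0 := fun h0 => hrs (by rw [h0]; exact P.zero_mem)
  have hneK : algebraMap (MvPolynomial Γ κ) K (r₁ * s') ≠ 0 := by
    intro h0
    exact hne (IsFractionRing.injective (MvPolynomial Γ κ) K (by rw [h0, map_zero]))
  refine ⟨((algebraMap (MvPolynomial Γ κ) K (r₁ * s'))⁻¹ * algebraMap (MvPolynomial Γ κ) K r') • n,
    N.smul_mem _ hn, r₁ * s', hrs, ?_⟩
  have h5 : (r₁ * s') • (((algebraMap (MvPolynomial Γ κ) K (r₁ * s'))⁻¹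
      * algebraMap (MvPolynomial Γ κ) K r') • n) = r' • n := by
    rw [← algebraMap_smul K (r₁ * s'), smul_smul, ← mul_assoc, mul_inv_cancel₀ hneK, one_mul,
      algebraMap_smul]
  have h6 : (r₁ * s') • (y - ((algebraMap (MvPolynomial Γ κ) K (r₁ * s'))⁻¹
      * algebraMap (MvPolynomial Γ κ) K r') • n)
      = r₁ • (s' • y - r' • c ((G.mul γ₀)^[k + i + 1] α))
        - r' • (n - r₁ • c ((G.mul γ₀)^[k + i + 1] α)) := by
    rw [smul_sub, h5, smul_sub, smul_sub, smul_smul, smul_smul, smul_smul, mul_comm r₁ r']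
    abel
  rw [h6]
  exact Submodule.sub_mem _ (Submodule.smul_mem _ _ h3) (Submodule.smul_mem _ _ h2)

end main

end MPadcHA
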