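import Pool.Agent.Lib.MP_adc574_ag_HA.HDefs

/-!
# HA: copy of the file ALat1 of stream DC for `Ok0`, `ConR`
-/

set_option autoImplicit false
set_option linter.unusedSectionVars false

namespace MPadcHA

open MvPolynomial TensorProduct MPadcDC

universe u

section main

variable {κ : Type u} [Field κ] [CharZero κ] {Γ : Type} [Fintype Γ] [DecidableEq Γ] {V : Type u}
  [AddCommGroup V] [Module κ V] {K : Type u} [Field K] [Algebra (MvPolynomial Γ κ) K]
  [IsFractionRing (MvPolynomial Γ κ) K] {H : Type u} [AddCommGroup H] [Module K H]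
  [Module (MvPolynomial Γ κ) H] [IsScalarTower (MvPolynomial Γ κ) K H]
  {G : Cx κ Γ V} {m : ℕ} {P : Ideal (MvPolynomial Γ κ)} {k₀ : ℕ} {dK : Γ → Derivation ℤ K K}
  {nab : Γ → H →+ H} {c : V →+ H}

theorem EE_mono {j k : ℕ} (h : j ≤ k) : EE G m c j ≤ EE G m c k := by
  refine Submodule.span_mono ?_
  rintro y ⟨i, hi, x, hx, rfl⟩
  exact ⟨i, le_trans hi h, x, hx, rfl⟩

theorem EE_le_MM (k : ℕ) : EE G m c k ≤ MM G m c := by
  refine Submodule.span_mono ?_
  rintro y ⟨i, -, x, hx, rfl⟩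
  exact ⟨i, x, hx, rfl⟩

theorem mem_MM {x : H} (hx : x ∈ MM G m c) : ∃ k, x ∈ EE G m c k := by
  unfold MM at hx
  induction hx using Submodule.span_induction with
  | mem x hx =>
    obtain ⟨j, y, hy, rfl⟩ := hx
    exact ⟨j, Submodule.subset_span ⟨j, le_refl j, y, hy, rfl⟩⟩
  | zero => exact ⟨0, Submodule.zero_mem _⟩
  | add x y _ _ h1 h2 =>
    obtain ⟨k1, h1⟩ := h1
    obtain ⟨k2, h2⟩ := h2
    exact ⟨max k1 k2, Submodule.add_mem _ (EE_mono (le_max_left k1 k2) h1) (EE_mono (le_max_right k1 k2) h2)⟩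
  | smul r x _ h1 =>
    obtain ⟨k1, h1⟩ := h1
    exact ⟨k1, Submodule.smul_mem _ r h1⟩

theorem EE_fg (hG : G.Ok0) (hC : ConR G m dK nab c) (k : ℕ) : (EE G m c k).FG := by
  classical
  have hfg : ∀ j, ∃ S : Finset V, Submodule.span κ (S : Set V) = G.Vd (m + 1) j := fun j => hG.fg (m + 1) j
  choose S hS using hfg
  rw [Submodule.fg_def]
  refine ⟨⋃ j ∈ Finset.range (k + 1), c '' (S j : Set V), ?_, ?_⟩
  · exact Set.Finite.biUnion (Finset.finite_toSet _) fun j _ => ((S j).finite_toSet).image _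
  · refine le_antisymm ?_ ?_
    · refine Submodule.span_le.2 ?_
      intro y hy
      simp only [Set.mem_iUnion] at hy
      obtain ⟨j, hj, x, hx, rfl⟩ := hy
      refine Submodule.subset_span ⟨j, Nat.lt_succ_iff.1 (Finset.mem_range.1 hj), x, ?_, rfl⟩
      rw [← hS j]
      exact Submodule.subset_span hx
    · refine Submodule.span_le.2 ?_
      rintro y ⟨j, hj, x, hx, rfl⟩
      rw [← hS j] at hx
      show c x ∈ Submodule.span (MvPolynomial Γ κ) (⋃ j ∈ Finset.range (k + 1), c '' (S j : Set V))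
      induction hx using Submodule.span_induction with
      | mem x hx =>
        refine Submodule.subset_span ?_
        simp only [Set.mem_iUnion]
        exact ⟨j, Finset.mem_range.2 (Nat.lt_succ_of_le hj), x, hx, rfl⟩
      | zero => rw [map_zero]; exact Submodule.zero_mem _
      | add x y _ _ h1 h2 => rw [map_add]; exact Submodule.add_mem _ h1 h2
      | smul a x _ h1 =>
        rw [hC.smul, algebraMap_smul]
        exact Submodule.smul_mem _ _ h1

theorem nab_smul (hC : ConR G m dK nab c) (γ : Γ) (r : MvPolynomial Γ κ) (x : H) :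
    nab γ (r • x) = pderiv γ r • x + r • nab γ x := by
  rw [← algebraMap_smul K r x, hC.leib, hC.dK_alg, algebraMap_smul, algebraMap_smul]

theorem nab_EE (hG : G.Ok0) (hC : ConR G m dK nab c) {k : ℕ} (γ : Γ) {x : H} (hx : x ∈ EE G m c k) :
    nab γ x ∈ EE G m c (k + 1) := by
  unfold EE at hx
  induction hx using Submodule.span_induction with
  | mem x hx =>
    obtain ⟨j, hj, y, hy, rfl⟩ := hx
    rw [hC.nabc γ j y hy]
    exact Submodule.subset_span ⟨j + 1, Nat.succ_le_succ hj, G.mul γ y, hG.mul_mem γ (m + 1) j y hy, rfl⟩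
  | zero => rw [map_zero]; exact Submodule.zero_mem _
  | add x y _ _ h1 h2 => rw [map_add]; exact Submodule.add_mem _ h1 h2
  | smul r x hx h1 =>
    rw [nab_smul hC]
    refine Submodule.add_mem _ (Submodule.smul_mem _ _ ?_) (Submodule.smul_mem _ _ h1)
    exact EE_mono (Nat.le_succ k) hx

theorem nab_MM (hG : G.Ok0) (hC : ConR G m dK nab c) (γ : Γ) {x : H} (hx : x ∈ MM G m c) :
    nab γ x ∈ MM G m c := by
  obtain ⟨k, hk⟩ := mem_MM hx
  exact EE_le_MM (k + 1) (nab_EE hG hC γ hk)

end main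

end MPadcHA
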