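import Pool.Agent.Lib.MP_adc574_ag_HA.HALat2
import Pool.Agent.Lib.MP_adc574_ag_DC.ALow

/-!
# HA: copy of the file ALat3 of stream DC for `Ok0`, `ConR`
-/

set_option autoImplicit false
set_option linter.unusedSectionVars false

namespace MPadcHA

open MvPolynomial TensorProduct MPadcDC

universe u

section main

variable {κ : Type u} [Field κ] [CharZero κ] {Γ : Type} [Fintype Γ] [DecidableEq Γ] {V : Type u}
  [AddCommGroup V] [Module κ V] {K : Type u} [Field K] [Algebra (MvPolynomial Γ κ) K]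
  [IsFractionRing (MvPolynomial Γ κ) K] {H : Type u} [AddCommGroup H] [Module K H]
  [Module (MvPolynomial Γ κ) H] [IsScalarTower (MvPolynomial Γ κ) K H]
  {G : Cx κ Γ V} {m : ℕ} {P : Ideal (MvPolynomial Γ κ)} {k₀ : ℕ} {dK : Γ → Derivation ℤ K K}
  {nab : Γ → H →+ H} {c : V →+ H}

theorem HALat3_mon (hC : ConR G m dK nab c) {k : ℕ} {x : V} (hx : x ∈ G.Vd (m + 1) k)
    (r : MvPolynomial Γ κ) :
    r • c x ∈ AddSubgroup.closure {y : H | y ∈ MM G m c ∧ ∃ z : ℤ,
      ∑ γ, (X γ : MvPolynomial Γ κ) • nab γ y = (C ((z : κ) - G.θ) : MvPolynomial Γ κ) • y} := by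
  induction r using MvPolynomial.induction_on' with
  | monomial d a =>
    apply AddSubgroup.subset_closure
    refine ⟨(MM G m c).smul_mem _ (Submodule.subset_span ⟨k, x, hx, rfl⟩), ((∑ γ, (d γ : ℤ)) - k : ℤ), ?_⟩
    have heul : ∑ γ, (X γ : MvPolynomial Γ κ) • c (G.mul γ x) = -((C (G.θ + k) : MvPolynomial Γ κ) • c x) := by
      have h := hC.eul k x hx
      simp only [algebraMap_smul] at h
      exact h
    have h1 : ∀ γ, (X γ : MvPolynomial Γ κ) • nab γ ((monomial d a : MvPolynomial Γ κ) • c x) =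
        (C (d γ : κ) * monomial d a : MvPolynomial Γ κ) • c x +
          (monomial d a : MvPolynomial Γ κ) • ((X γ : MvPolynomial Γ κ) • c (G.mul γ x)) := by
      intro γ
      rw [nab_smul hC, smul_add, smul_smul, X_mul_pderiv_monomial, hC.nabc γ k x hx, smul_smul, smul_smul,
        mul_comm (X γ)]
      congr 2
      rw [nsmul_eq_mul]
      congr 1
    rw [Finset.sum_congr rfl (fun γ _ => h1 γ), Finset.sum_add_distrib, ← Finset.smul_sum, heul,
      ← Finset.sum_smul, ← Finset.sum_mul, smul_neg, smul_smul, smul_smul, ← sub_eq_add_neg, ← sub_smul]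
    congr 1
    rw [mul_comm (monomial d a) (C _), ← sub_mul]
    congr 1
    rw [← map_sum, ← map_sub]
    congr 1
    push_cast
    ring
  | add p q hp hq =>
    rw [add_smul]
    exact add_mem hp hq

theorem MM_eig (hG : G.Ok0) (hC : ConR G m dK nab c) {x : H} (hx : x ∈ MM G m c) :
    x ∈ AddSubgroup.closure {y : H | y ∈ MM G m c ∧ ∃ z : ℤ,
      ∑ γ, (X γ : MvPolynomial Γ κ) • nab γ y = (C ((z : κ) - G.θ) : MvPolynomial Γ κ) • y} := by
  have key : ∀ r : MvPolynomial Γ κ, r • x ∈ AddSubgroup.closure {y : H | y ∈ MM G m c ∧ ∃ z : ℤ,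
      ∑ γ, (X γ : MvPolynomial Γ κ) • nab γ y = (C ((z : κ) - G.θ) : MvPolynomial Γ κ) • y} := by
    refine Submodule.span_induction (p := fun x _ => ∀ r : MvPolynomial Γ κ,
      r • x ∈ AddSubgroup.closure {y : H | y ∈ MM G m c ∧ ∃ z : ℤ,
        ∑ γ, (X γ : MvPolynomial Γ κ) • nab γ y = (C ((z : κ) - G.θ) : MvPolynomial Γ κ) • y}) ?_ ?_ ?_ ?_ hx
    · rintro y ⟨j, v, hv, rfl⟩ r
      exact HALat3_mon hC hv r
    · intro r
      rw [smul_zero]
      exact zero_mem _
    · intro y z _ _ hy hz r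
      rw [smul_add]
      exact add_mem (hy r) (hz r)
    · intro a y _ hy r
      rw [smul_smul]
      exact hy (r * a)
  have := key 1
  rwa [one_smul] at this

/-- A stable finitely generated submodule of `MM` is `0`. -/
theorem sub_zero (_ : G.Ok0) (hC : ConR G m dK nab c) (N : Submodule (MvPolynomial Γ κ) H) (hN : N ≤ MM G m c)
    (hst : ∀ γ, ∀ x ∈ N, nab γ x ∈ N) (hfg : N.FG) : N = ⊥ := hC.sub N hN hst hfg

/-- If the image of `MM` modulo a stable subspace is finitely generated it is `0`. -/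
theorem quot_zero (_ : G.Ok0) (hC : ConR G m dK nab c) (N : Submodule K H) (hst : ∀ γ, ∀ x ∈ N, nab γ x ∈ N)
    (hfg : ((MM G m c).map ((N.restrictScalars (MvPolynomial Γ κ)).mkQ)).FG) : N = ⊤ := hC.quot N hst hfg

end main

end MPadcHA
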