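import Pool.Agent.Lib.MP_adc574_ag_HA.HALat2

/-!
# HA: copy of the file ANb1 of stream DC for `Ok0`, `ConR`
-/

set_option autoImplicit false
set_option linter.unusedSectionVars false

namespace MPadcHA

open MvPolynomial TensorProduct MPadcDC

universe u

section loc

variable {R : Type u} [CommRing R] {H : Type u} [AddCommGroup H] [Module R H] {P : Ideal R} {E E' : Submodule R H}

theorem lo_add (hP : P.IsPrime) {x y : H} (hx : x ∈ lo P E) (hy : y ∈ lo P E) : x + y ∈ lo P E := by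
  obtain ⟨s, hs, hsx⟩ := hx
  obtain ⟨t, ht, hty⟩ := hy
  refine ⟨s * t, fun h => (hP.mem_or_mem h).elim hs ht, ?_⟩
  have h1 : (s * t) • (x + y) = t • (s • x) + s • (t • y) := by
    rw [smul_add, mul_smul, mul_smul, smul_comm s t x]
  rw [h1]
  exact E.add_mem (E.smul_mem _ hsx) (E.smul_mem _ hty)

theorem lo_smul {x : H} (r : R) (hx : x ∈ lo P E) : r • x ∈ lo P E := by
  obtain ⟨s, hs, hsx⟩ := hx
  refine ⟨s, hs, ?_⟩
  rw [smul_comm]
  exact E.smul_mem _ hsx

theorem lo_div (hP : P.IsPrime) {x : H} {s : R} (hs : s ∉ P) (hx : s • x ∈ lo P E) : x ∈ lo P E := by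
  obtain ⟨t, ht, htx⟩ := hx
  refine ⟨t * s, fun h => (hP.mem_or_mem h).elim ht hs, ?_⟩
  rw [mul_smul]
  exact htx

theorem lo_mono (h : E ≤ E') {x : H} (hx : x ∈ lo P E) : x ∈ lo P E' := by
  obtain ⟨s, hs, hsx⟩ := hx
  exact ⟨s, hs, h hsx⟩

theorem HANb1_zero (hP : P.IsPrime) : (0 : H) ∈ lo P E := by
  refine ⟨1, fun h => hP.ne_top ((Ideal.eq_top_iff_one _).2 h), ?_⟩
  rw [smul_zero]
  exact E.zero_mem

theorem HANb1_of (hP : P.IsPrime) {x : H} (hx : x ∈ E) : x ∈ lo P E := by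
  refine ⟨1, fun h => hP.ne_top ((Ideal.eq_top_iff_one _).2 h), ?_⟩
  rw [one_smul]
  exact hx

theorem HANb1_sub (hP : P.IsPrime) {x y : H} (hx : x ∈ lo P E) (hy : y ∈ lo P E) :
    x - y ∈ lo P E := by
  have h1 : x - y = x + (-1 : R) • y := by
    rw [neg_smul, one_smul, sub_eq_add_neg]
  rw [h1]
  exact lo_add hP hx (lo_smul _ hy)

theorem HANb1_span (hP : P.IsPrime) {r : R} {S : Set H} (hS : ∀ x ∈ S, r • x ∈ lo P E) {x : H}
    (hx : x ∈ Submodule.span R S) : r • x ∈ lo P E := by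
  refine Submodule.span_induction (p := fun x _ => r • x ∈ lo P E) hS ?_ ?_ ?_ hx
  · rw [smul_zero]
    exact HANb1_zero hP
  · intro x y _ _ h1 h2
    rw [smul_add]
    exact lo_add hP h1 h2
  · intro a x _ h1
    rw [smul_comm]
    exact lo_smul _ h1

end loc

section main

variable {κ : Type u} [Field κ] [CharZero κ] {Γ : Type} [Fintype Γ] [DecidableEq Γ] {V : Type u}
  [AddCommGroup V] [Module κ V] {K : Type u} [Field K] [Algebra (MvPolynomial Γ κ) K]
  [IsFractionRing (MvPolynomial Γ κ) K] {H : Type u} [AddCommGroup H] [Module K H]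
  [Module (MvPolynomial Γ κ) H] [IsScalarTower (MvPolynomial Γ κ) K H]
  {G : Cx κ Γ V} {m : ℕ} {P : Ideal (MvPolynomial Γ κ)} {k₀ : ℕ} {dK : Γ → Derivation ℤ K K}
  {nab : Γ → H →+ H} {c : V →+ H}

theorem bdd_add (hP : P.IsPrime) {γ₀ : Γ} {π : MvPolynomial Γ κ} {w w' : H}
    (h : Bdd G m c nab P γ₀ π w) (h' : Bdd G m c nab P γ₀ π w') : Bdd G m c nab P γ₀ π (w + w') := by
  obtain ⟨i, j, h⟩ := h
  obtain ⟨i', j', h'⟩ := h'
  refine ⟨i + i', max j j', fun k => ?_⟩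
  have h1 := lo_mono (EE_mono (G := G) (m := m) (c := c) (le_max_left j j')) (h k)
  have h2 := lo_mono (EE_mono (G := G) (m := m) (c := c) (le_max_right j j')) (h' k)
  have h3 : π ^ (i + i') • (nab γ₀)^[k] (w + w') =
      π ^ i' • (π ^ i • (nab γ₀)^[k] w) + π ^ i • (π ^ i' • (nab γ₀)^[k] w') := by
    rw [iterate_map_add, smul_add, pow_add, mul_smul, mul_smul,
      smul_comm (π ^ i) (π ^ i') ((nab γ₀)^[k] w)]
  rw [h3]
  exact lo_add hP (lo_smul _ h1) (lo_smul _ h2)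

theorem bdd_smul (hC : ConR G m dK nab c) (hP : P.IsPrime) {γ₀ : Γ} {π : MvPolynomial Γ κ} (r : MvPolynomial Γ κ)
    {w : H} (h : Bdd G m c nab P γ₀ π w) : Bdd G m c nab P γ₀ π (r • w) := by
  obtain ⟨i, j, h⟩ := h
  have key : ∀ (k : ℕ) (r : MvPolynomial Γ κ) (l : ℕ),
      π ^ i • (nab γ₀)^[k] (r • (nab γ₀)^[l] w) ∈ lo P (EE G m c j) := by
    intro k
    induction k with
    | zero =>
      intro r l
      rw [Function.iterate_zero_apply, smul_comm]
      exact lo_smul _ (h l)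
    | succ k ih =>
      intro r l
      rw [Function.iterate_succ_apply, nab_smul hC, iterate_map_add, smul_add,
        ← Function.iterate_succ_apply' (nab γ₀) l w]
      exact lo_add hP (ih _ _) (ih _ _)
  exact ⟨i, j, fun k => key k r 0⟩

theorem HANb1_leib (hC : ConR G m dK nab c) (γ₀ : Γ) (s : MvPolynomial Γ κ) (w : H) (k : ℕ) :
    (nab γ₀)^[k] (s • w) - s • (nab γ₀)^[k] w ∈
      Submodule.span (MvPolynomial Γ κ) {x | ∃ l, l < k ∧ (nab γ₀)^[l] w = x} := by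
  induction k with
  | zero =>
    rw [Function.iterate_zero_apply, Function.iterate_zero_apply, sub_self]
    exact Submodule.zero_mem _
  | succ k ih =>
    have hst : ∀ x ∈ Submodule.span (MvPolynomial Γ κ) {x | ∃ l, l < k ∧ (nab γ₀)^[l] w = x},
        x ∈ Submodule.span (MvPolynomial Γ κ) {x | ∃ l, l < k + 1 ∧ (nab γ₀)^[l] w = x} ∧
        nab γ₀ x ∈ Submodule.span (MvPolynomial Γ κ)
          {x | ∃ l, l < k + 1 ∧ (nab γ₀)^[l] w = x} := by
      intro x hx
      refine Submodule.span_induction (p := fun x _ =>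
        x ∈ Submodule.span (MvPolynomial Γ κ) {x | ∃ l, l < k + 1 ∧ (nab γ₀)^[l] w = x} ∧
        nab γ₀ x ∈ Submodule.span (MvPolynomial Γ κ)
          {x | ∃ l, l < k + 1 ∧ (nab γ₀)^[l] w = x}) ?_ ?_ ?_ ?_ hx
      · rintro x ⟨l, hl, rfl⟩
        refine ⟨Submodule.subset_span ⟨l, by omega, rfl⟩,
          Submodule.subset_span ⟨l + 1, by omega, ?_⟩⟩
        rw [Function.iterate_succ_apply']
      · rw [map_zero]
        exact ⟨Submodule.zero_mem _, Submodule.zero_mem _⟩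
      · intro x y _ _ h1 h2
        rw [map_add]
        exact ⟨Submodule.add_mem _ h1.1 h2.1, Submodule.add_mem _ h1.2 h2.2⟩
      · intro a x _ h1
        rw [nab_smul hC]
        exact ⟨Submodule.smul_mem _ _ h1.1,
          Submodule.add_mem _ (Submodule.smul_mem _ _ h1.1) (Submodule.smul_mem _ _ h1.2)⟩
    have h1 : (nab γ₀)^[k + 1] (s • w) - s • (nab γ₀)^[k + 1] w =
        nab γ₀ ((nab γ₀)^[k] (s • w) - s • (nab γ₀)^[k] w) +
          pderiv γ₀ s • (nab γ₀)^[k] w := by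
      rw [map_sub, nab_smul hC, Function.iterate_succ_apply', Function.iterate_succ_apply']
      abel
    rw [h1]
    exact Submodule.add_mem _ (hst _ ih).2
      (Submodule.smul_mem _ _ (Submodule.subset_span ⟨k, by omega, rfl⟩))

/-- Division by an element outside of `P`. -/
theorem bdd_div (hC : ConR G m dK nab c) (hP : P.IsPrime) {γ₀ : Γ} {π : MvPolynomial Γ κ} {s : MvPolynomial Γ κ}
    (hs : s ∉ P) {w : H} (h : Bdd G m c nab P γ₀ π (s • w)) : Bdd G m c nab P γ₀ π w := by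
  obtain ⟨i, j, h⟩ := h
  refine ⟨i, j, fun k => ?_⟩
  induction k using Nat.strong_induction_on with
  | _ k ih =>
    refine lo_div hP hs ?_
    have h1 : s • (π ^ i • (nab γ₀)^[k] w) = π ^ i • (nab γ₀)^[k] (s • w) -
        π ^ i • ((nab γ₀)^[k] (s • w) - s • (nab γ₀)^[k] w) := by
      rw [smul_sub, sub_sub_cancel, smul_comm]
    rw [h1]
    refine HANb1_sub hP (h k) (HANb1_span hP ?_ (HANb1_leib hC γ₀ s w k))
    rintro x ⟨l, hl, rfl⟩
    exact ih l hl

theorem bdd_nab (hG : G.Ok0) (hB : G.Bad m P k₀) (hC : ConR G m dK nab c) {γ₀ : Γ} {π : MvPolynomial Γ κ}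
    (hP : P = Ideal.span {π}) (γ : Γ) {w : H} (h : Bdd G m c nab P γ₀ π w) :
    Bdd G m c nab P γ₀ π (nab γ w) := by
  obtain ⟨i, j, h⟩ := h
  have hPp := hB.prime
  refine ⟨i + 1, j + 1, fun k => ?_⟩
  have hcomm : (nab γ₀)^[k] (nab γ w) = nab γ ((nab γ₀)^[k] w) := by
    clear h
    induction k with
    | zero => rfl
    | succ k ih =>
      rw [Function.iterate_succ_apply', Function.iterate_succ_apply', ih, hC.comm]
  rw [hcomm]
  obtain ⟨y, hy⟩ : ∃ y, y = (nab γ₀)^[k] w := ⟨_, rfl⟩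
  have h1 := h k
  rw [← hy] at h1 ⊢
  obtain ⟨s, hs, hsE⟩ := h1
  have h2 := nab_EE hG hC γ hsE
  rw [← mul_smul, nab_smul hC] at h2
  have h3 : π * pderiv γ (s * π ^ i) = (π * pderiv γ s + s * (i * pderiv γ π)) * π ^ i := by
    rw [Derivation.leibniz, Derivation.leibniz_pow, smul_eq_mul, smul_eq_mul, nsmul_eq_mul,
      smul_eq_mul]
    rcases i with _ | i
    · simp
    · rw [Nat.add_sub_cancel]
      ring
  have h4 : s • (π ^ (i + 1) • nab γ y) =
      π • (pderiv γ (s * π ^ i) • y + (s * π ^ i) • nab γ y) -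
        (π * pderiv γ s + s * (i * pderiv γ π)) • (π ^ i • y) := by
    rw [smul_add, ← mul_smul, ← mul_smul, ← mul_smul, ← mul_smul, ← h3, add_sub_cancel_left]
    congr 1
    ring
  refine lo_div hPp hs ?_
  rw [h4]
  refine HANb1_sub hPp (lo_smul _ (HANb1_of hPp h2)) (lo_smul _ (lo_mono (EE_mono (Nat.le_succ j)) ?_))
  exact ⟨s, hs, hsE⟩

theorem bdd_red (hG : G.Ok0) (hB : G.Bad m P k₀) (hC : ConR G m dK nab c) {γ₀ : Γ} {π : MvPolynomial Γ κ}
    (hP : P = Ideal.span {π}) {w : H} (h : Bdd G m c nab P γ₀ π w) :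
    ∃ i : ℕ, ∀ k : ℕ, π ^ i • (nab γ₀)^[k] w ∈ lo P (EE G m c k₀) := by
  obtain ⟨i, j, h⟩ := h
  have hπ : π ∈ P := by
    rw [hP]
    exact Ideal.mem_span_singleton_self π
  refine ⟨j + i, fun k => ?_⟩
  obtain ⟨s, hs, hsE⟩ := h k
  refine ⟨s, hs, ?_⟩
  have h1 : s • (π ^ (j + i) • (nab γ₀)^[k] w) = π ^ j • (s • (π ^ i • (nab γ₀)^[k] w)) := by
    rw [pow_add, mul_smul, smul_comm s (π ^ j)]
  rw [h1]
  exact EE_kill_pow hG hB hC le_rfl j hπ (EE_mono (Nat.le_add_left j k₀) hsE)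

end main

end MPadcHA
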