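import Pool.Agent.Lib.MP_adc574_ag_HA.HANb2
import Pool.Agent.Lib.MP_adc574_ag_HA.HAIrr3

/-!
# HA: copy of the file ANb3 of stream DC for `Ok0`, `ConR`
-/

set_option autoImplicit false
set_option linter.unusedSectionVars false

namespace MPadcHA

open MvPolynomial TensorProduct MPadcDC

universe u

section main

variable {κ : Type u} [Field κ] [CharZero κ] {Γ : Type} [Fintype Γ] [DecidableEq Γ] {V : Type u}
  [AddCommGroup V] [Module κ V] {K : Type u} [Field K] [Algebra (MvPolynomial Γ κ) K]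
  [IsFractionRing (MvPolynomial Γ κ) K] {H : Type u} [AddCommGroup H] [Module K H]
  [Module (MvPolynomial Γ κ) H] [IsScalarTower (MvPolynomial Γ κ) K H]
  {G : Cx κ Γ V} {m : ℕ} {P : Ideal (MvPolynomial Γ κ)} {k₀ : ℕ} {dK : Γ → Derivation ℤ K K}
  {nab : Γ → H →+ H} {c : V →+ H}

theorem HANb3_zero (hC : ConR G m dK nab c) (hP : P.IsPrime) {γ₀ : Γ} {π : MvPolynomial Γ κ} {w : H}
    (h : Bdd G m c nab P γ₀ π w) : Bdd G m c nab P γ₀ π (0 : H) := by
  have := bdd_smul hC hP 0 h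
  rwa [zero_smul] at this

variable (K) in
include K in
theorem HANb3_inj {r : MvPolynomial Γ κ} (hr : r ≠ 0) {x : H} (hx : r • x = 0) : x = 0 := by
  have h1 : algebraMap (MvPolynomial Γ κ) K r ≠ 0 := by
    intro h0
    exact hr (IsFractionRing.injective (MvPolynomial Γ κ) K (by rw [h0, map_zero]))
  have h2 : algebraMap (MvPolynomial Γ κ) K r • x = 0 := by
    rw [algebraMap_smul]
    exact hx
  exact (smul_eq_zero.mp h2).resolve_left h1

theorem bdd_all (hG : G.Ok0) (hB : G.Bad m P k₀) (hC : ConR G m dK nab c) {γ₀ : Γ} {π : MvPolynomial Γ κ}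
    (hP : P = Ideal.span {π}) (hγ : pderiv γ₀ π ∉ P)
    (h : ∀ w : H, ∃ r : MvPolynomial Γ κ, r ≠ 0 ∧ Bdd G m c nab P γ₀ π (r • w)) (w : H) : w = 0 := by
  classical
  have hpr : P.IsPrime := hB.prime
  have hπ0 : π ≠ 0 := by
    rintro rfl
    exact hB.ne (by rw [hP]; simp)
  have hπ : Prime π := by
    rw [hP] at hpr
    exact (Ideal.span_singleton_prime hπ0).mp hpr
  have hπP : π ∈ P := by
    rw [hP]
    exact Ideal.mem_span_singleton_self π
  have h0 : Bdd G m c nab P γ₀ π (0 : H) := by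
    obtain ⟨r, -, hr⟩ := h 0
    exact HANb3_zero hC hpr hr
  obtain ⟨n, hn⟩ := bdd_lat hG hB hC hP hγ h
  obtain ⟨W, hW⟩ : ∃ W : Submodule (MvPolynomial Γ κ) H, ∀ x, x ∈ W ↔ Bdd G m c nab P γ₀ π x :=
    ⟨{ carrier := {w | Bdd G m c nab P γ₀ π w}
       add_mem' := fun {a b} ha hb => bdd_add hpr ha hb
       zero_mem' := h0
       smul_mem' := fun r x hx => bdd_smul hC hpr r hx }, fun x => Iff.rfl⟩
  obtain ⟨N, hN⟩ : ∃ N : Submodule (MvPolynomial Γ κ) H, N = W ⊓ MM G m c := ⟨_, rfl⟩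
  have hNm : ∀ x, x ∈ N ↔ Bdd G m c nab P γ₀ π x ∧ x ∈ MM G m c := by
    intro x
    rw [hN, Submodule.mem_inf, hW]
  have hle : N ≤ MM G m c := fun x hx => ((hNm x).mp hx).2
  have hst : ∀ γ, ∀ x ∈ N, nab γ x ∈ N := by
    intro γ x hx
    rw [hNm] at hx ⊢
    exact ⟨bdd_nab hG hB hC hP γ hx.1, nab_MM hG hC γ hx.2⟩
  have hfg' : (N.map (LinearMap.lsmul (MvPolynomial Γ κ) H (π ^ n))).FG := by
    refine hull K (EE_fg hG hC k₀) ?_
    rintro y ⟨x, hx, rfl⟩
    have hx' : x ∈ N := hx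
    rw [hNm] at hx'
    obtain ⟨j, hj⟩ := mem_MM hx'.2
    have hj' : x ∈ EE G m c (k₀ + j) := EE_mono (Nat.le_add_left j k₀) hj
    have h1 : π ^ j • x ∈ EE G m c k₀ := EE_kill_pow hG hB hC le_rfl j hπP hj'
    obtain ⟨s, hs, hs'⟩ := hn x hx'.1
    refine ⟨π ^ j, s, pow_ne_zero _ hπ0, ?_, ?_, ?_⟩
    · apply IsRelPrime.pow_left
      rw [hπ.irreducible.isRelPrime_iff_not_dvd]
      intro hd
      apply hs
      rw [hP]
      exact Ideal.mem_span_singleton.mpr hd
    · rw [LinearMap.lsmul_apply, smul_comm]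
      exact (EE G m c k₀).smul_mem _ h1
    · rw [LinearMap.lsmul_apply]
      exact hs'
  have hfg : N.FG := by
    refine Submodule.fg_of_fg_map_injective (LinearMap.lsmul (MvPolynomial Γ κ) H (π ^ n)) ?_ hfg'
    intro a b hab
    have h1 : π ^ n • (a - b) = 0 := by
      rw [smul_sub, sub_eq_zero]
      exact hab
    exact sub_eq_zero.mp (HANb3_inj K (pow_ne_zero n hπ0) h1)
  have hbot : N = ⊥ := sub_zero hG hC N hle hst hfg
  obtain ⟨r, hr, hr'⟩ := h w
  obtain ⟨r', hs, hs'⟩ := EE_spn hG hB hC w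
  have h1 : (r' * r) • w ∈ N := by
    rw [hNm]
    constructor
    · rw [← smul_smul]
      exact bdd_smul hC hpr r' hr'
    · rw [mul_comm, ← smul_smul]
      exact (MM G m c).smul_mem _ (EE_le_MM k₀ hs')
  rw [hbot, Submodule.mem_bot] at h1
  exact HANb3_inj K (mul_ne_zero hs hr) h1

theorem nb (hG : G.Ok0) (hB : G.Bad m P k₀) (hC : ConR G m dK nab c) {γ₀ : Γ} {π : MvPolynomial Γ κ}
    (hP : P = Ideal.span {π}) (hγ : pderiv γ₀ π ∉ P) (w : H) (h : Bdd G m c nab P γ₀ π w) : w = 0 := by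
  classical
  have hpr : P.IsPrime := hB.prime
  have h0 : Bdd G m c nab P γ₀ π (0 : H) := HANb3_zero hC hpr h
  have hsm : ∀ (r : MvPolynomial Γ κ) (x : H), algebraMap (MvPolynomial Γ κ) K r • x = r • x :=
    fun r x => algebraMap_smul K r x
  obtain ⟨N, hN⟩ : ∃ N : Submodule K H, ∀ x, x ∈ N ↔
      ∃ r : MvPolynomial Γ κ, r ≠ 0 ∧ Bdd G m c nab P γ₀ π (r • x) :=
    ⟨{ carrier := {x | ∃ r : MvPolynomial Γ κ, r ≠ 0 ∧ Bdd G m c nab P γ₀ π (r • x)}
       add_mem' := by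
        rintro a b ⟨r, hr, ha⟩ ⟨r', hr', hb⟩
        refine ⟨r * r', mul_ne_zero hr hr', ?_⟩
        have h1 : (r * r') • (a + b) = r' • (r • a) + r • (r' • b) := by
          rw [smul_add, smul_smul, smul_smul, mul_comm r' r]
        rw [h1]
        exact bdd_add hpr (bdd_smul hC hpr r' ha) (bdd_smul hC hpr r hb)
       zero_mem' := ⟨1, one_ne_zero, by rw [smul_zero]; exact h0⟩
       smul_mem' := by
        rintro f x ⟨r, hr, hx⟩
        obtain ⟨u, v, hv, hf⟩ := IsFractionRing.div_surjective (A := MvPolynomial Γ κ) f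
        have hv0 : v ≠ 0 := nonZeroDivisors.ne_zero hv
        have hv' : algebraMap (MvPolynomial Γ κ) K v ≠ 0 := by
          intro h0
          exact hv0 (IsFractionRing.injective (MvPolynomial Γ κ) K (by rw [h0, map_zero]))
        refine ⟨v * r, mul_ne_zero hv0 hr, ?_⟩
        have h1 : (v * r) • (f • x) = u • (r • x) := by
          rw [← hsm, ← hsm, ← hsm, ← hf, smul_smul, smul_smul, map_mul]
          congr 1
          field_simp
        rw [h1]
        exact bdd_smul hC hpr u hx }, fun x => Iff.rfl⟩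
  have hst : ∀ γ, ∀ x ∈ N, nab γ x ∈ N := by
    intro γ x hx
    rw [hN] at hx ⊢
    obtain ⟨r, hr, hx⟩ := hx
    refine ⟨r ^ 2, pow_ne_zero 2 hr, ?_⟩
    have h1 : r ^ 2 • nab γ x = r • nab γ (r • x) + (-(pderiv γ r)) • (r • x) := by
      rw [nab_smul hC, smul_add, smul_smul, smul_smul, smul_smul, ← pow_two]
      have h2 : (-(pderiv γ r) * r) • x = -((r * pderiv γ r) • x) := by
        rw [← neg_smul]
        congr 1
        ring
      rw [h2]
      abel
    rw [h1]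
    exact bdd_add hpr (bdd_smul hC hpr r (bdd_nab hG hB hC hP γ hx)) (bdd_smul hC hpr _ hx)
  rcases irr hG hB hC N hst with hN0 | hN1
  · have h1 : w ∈ N := by
      rw [hN]
      exact ⟨1, one_ne_zero, by rw [one_smul]; exact h⟩
    rw [hN0, Submodule.mem_bot] at h1
    exact h1
  · refine bdd_all hG hB hC hP hγ ?_ w
    intro x
    rw [← hN, hN1]
    exact Submodule.mem_top

end main

end MPadcHA
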