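import Pool.Agent.Lib.MP_adc574_ag_HA.HLow
import Pool.Agent.Lib.MP_adc574_ag_DC.ALow

/-!
# HA: `ConR` from the absence of flat vectors

`conR_of_flat`: if `H` has no flat vectors (`nab γ x = 0` for all `γ`) except `0` and the classes of the forms whose Euler
eigenvalue `-(θ + k)` is a natural number are `0`, then the two additional conditions of `ConR` hold. `conR_of_ne`: the
case of the stream DC (`θ` not an integer).
-/

set_option autoImplicit false
set_option linter.unusedSectionVars false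

namespace MPadcHA

open MvPolynomial TensorProduct MPadcDC

universe u

section main

variable {κ : Type u} [Field κ] [CharZero κ] {Γ : Type} [Fintype Γ] [DecidableEq Γ] {V : Type u}
  [AddCommGroup V] [Module κ V] {K : Type u} [Field K] [Algebra (MvPolynomial Γ κ) K]
  [IsFractionRing (MvPolynomial Γ κ) K] {H : Type u} [AddCommGroup H] [Module K H]
  [Module (MvPolynomial Γ κ) H] [IsScalarTower (MvPolynomial Γ κ) K H]
  {G : Cx κ Γ V} {m : ℕ} {P : Ideal (MvPolynomial Γ κ)} {k₀ : ℕ} {dK : Γ → Derivation ℤ K K}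
  {nab : Γ → H →+ H} {c : V →+ H}

private theorem HCon_EE_mono {j k : ℕ} (h : j ≤ k) : EE G m c j ≤ EE G m c k := by
  refine Submodule.span_mono ?_
  rintro y ⟨i, hi, x, hx, rfl⟩
  exact ⟨i, le_trans hi h, x, hx, rfl⟩

private theorem HCon_EE_le_MM (k : ℕ) : EE G m c k ≤ MM G m c := by
  refine Submodule.span_mono ?_
  rintro y ⟨i, -, x, hx, rfl⟩
  exact ⟨i, x, hx, rfl⟩

private theorem HCon_mem_MM {x : H} (hx : x ∈ MM G m c) : ∃ k, x ∈ EE G m c k := by
  unfold MM at hx
  induction hx using Submodule.span_induction with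
  | mem x hx =>
    obtain ⟨j, y, hy, rfl⟩ := hx
    exact ⟨j, Submodule.subset_span ⟨j, le_refl j, y, hy, rfl⟩⟩
  | zero => exact ⟨0, Submodule.zero_mem _⟩
  | add x y _ _ h1 h2 =>
    obtain ⟨k1, h1⟩ := h1
    obtain ⟨k2, h2⟩ := h2
    exact ⟨max k1 k2, Submodule.add_mem _ (HCon_EE_mono (le_max_left k1 k2) h1) (HCon_EE_mono (le_max_right k1 k2) h2)⟩
  | smul r x _ h1 =>
    obtain ⟨k1, h1⟩ := h1
    exact ⟨k1, Submodule.smul_mem _ r h1⟩

private theorem HCon_nab_smul (hC : Con G m dK nab c) (γ : Γ) (r : MvPolynomial Γ κ) (x : H) :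
    nab γ (r • x) = pderiv γ r • x + r • nab γ x := by
  rw [← algebraMap_smul K r x, hC.leib, hC.dK_alg, algebraMap_smul, algebraMap_smul]

private theorem HCon_nab_EE (hG : G.Ok0) (hC : Con G m dK nab c) {k : ℕ} (γ : Γ) {x : H} (hx : x ∈ EE G m c k) :
    nab γ x ∈ EE G m c (k + 1) := by
  unfold EE at hx
  induction hx using Submodule.span_induction with
  | mem x hx =>
    obtain ⟨j, hj, y, hy, rfl⟩ := hx
    rw [hC.nabc γ j y hy]
    exact Submodule.subset_span ⟨j + 1, Nat.succ_le_succ hj, G.mul γ y, hG.mul_mem γ (m + 1) j y hy, rfl⟩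
  | zero => rw [map_zero]; exact Submodule.zero_mem _
  | add x y _ _ h1 h2 => rw [map_add]; exact Submodule.add_mem _ h1 h2
  | smul r x hx h1 =>
    rw [HCon_nab_smul hC]
    refine Submodule.add_mem _ (Submodule.smul_mem _ _ ?_) (Submodule.smul_mem _ _ h1)
    exact HCon_EE_mono (Nat.le_succ k) hx

private theorem HCon_nab_MM (hG : G.Ok0) (hC : Con G m dK nab c) (γ : Γ) {x : H} (hx : x ∈ MM G m c) :
    nab γ x ∈ MM G m c := by
  obtain ⟨k, hk⟩ := HCon_mem_MM hx
  exact HCon_EE_le_MM (k + 1) (HCon_nab_EE hG hC γ hk)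

private theorem HCon_ALat3_mon (hC : Con G m dK nab c) {k : ℕ} {x : V} (hx : x ∈ G.Vd (m + 1) k)
    (r : MvPolynomial Γ κ) :
    r • c x ∈ AddSubgroup.closure {y : H | y ∈ MM G m c ∧ ∃ z : ℤ,
      ∑ γ, (X γ : MvPolynomial Γ κ) • nab γ y = (C ((z : κ) - G.θ) : MvPolynomial Γ κ) • y} := by
  induction r using MvPolynomial.induction_on' with
  | monomial d a =>
    apply AddSubgroup.subset_closure
    refine ⟨(MM G m c).smul_mem _ (Submodule.subset_span ⟨k, x, hx, rfl⟩), ((∑ γ, (d γ : ℤ)) - k : ℤ), ?_⟩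
    have heul : ∑ γ, (X γ : MvPolynomial Γ κ) • c (G.mul γ x) = -((C (G.θ + k) : MvPolynomial Γ κ) • c x) := by
      have h := hC.eul k x hx
      simp only [algebraMap_smul] at h
      exact h
    have h1 : ∀ γ, (X γ : MvPolynomial Γ κ) • nab γ ((monomial d a : MvPolynomial Γ κ) • c x) =
        (C (d γ : κ) * monomial d a : MvPolynomial Γ κ) • c x +
          (monomial d a : MvPolynomial Γ κ) • ((X γ : MvPolynomial Γ κ) • c (G.mul γ x)) := by
      intro γ
      rw [HCon_nab_smul hC, smul_add, smul_smul, X_mul_pderiv_monomial, hC.nabc γ k x hx, smul_smul, smul_smul,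
        mul_comm (X γ)]
      congr 2
      rw [nsmul_eq_mul]
      congr 1
    rw [Finset.sum_congr rfl (fun γ _ => h1 γ), Finset.sum_add_distrib, ← Finset.smul_sum, heul,
      ← Finset.sum_smul, ← Finset.sum_mul, smul_neg, smul_smul, smul_smul, ← sub_eq_add_neg, ← sub_smul]
    congr 1
    rw [mul_comm (monomial d a) (C _), ← sub_mul]
    congr 1
    rw [← map_sum, ← map_sub]
    congr 1
    push_cast
    ring
  | add p q hp hq =>
    rw [add_smul]
    exact add_mem hp hq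

private theorem HCon_MM_eig (hG : G.Ok0) (hC : Con G m dK nab c) {x : H} (hx : x ∈ MM G m c) :
    x ∈ AddSubgroup.closure {y : H | y ∈ MM G m c ∧ ∃ z : ℤ,
      ∑ γ, (X γ : MvPolynomial Γ κ) • nab γ y = (C ((z : κ) - G.θ) : MvPolynomial Γ κ) • y} := by
  have key : ∀ r : MvPolynomial Γ κ, r • x ∈ AddSubgroup.closure {y : H | y ∈ MM G m c ∧ ∃ z : ℤ,
      ∑ γ, (X γ : MvPolynomial Γ κ) • nab γ y = (C ((z : κ) - G.θ) : MvPolynomial Γ κ) • y} := by
    refine Submodule.span_induction (p := fun x _ => ∀ r : MvPolynomial Γ κ,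
      r • x ∈ AddSubgroup.closure {y : H | y ∈ MM G m c ∧ ∃ z : ℤ,
        ∑ γ, (X γ : MvPolynomial Γ κ) • nab γ y = (C ((z : κ) - G.θ) : MvPolynomial Γ κ) • y}) ?_ ?_ ?_ ?_ hx
    · rintro y ⟨j, v, hv, rfl⟩ r
      exact HCon_ALat3_mon hC hv r
    · intro r
      rw [smul_zero]
      exact zero_mem _
    · intro y z _ _ hy hz r
      rw [smul_add]
      exact add_mem (hy r) (hz r)
    · intro a y _ hy r
      rw [smul_smul]
      exact hy (r * a)
  have := key 1
  rwa [one_smul] at this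

private theorem HCon_sub (hG : G.Ok0) (hC : Con G m dK nab c) (hfl : ∀ x : H, (∀ γ, nab γ x = 0) → x = 0)
    (N : Submodule (MvPolynomial Γ κ) H) (hN : N ≤ MM G m c)
    (hst : ∀ γ, ∀ x ∈ N, nab γ x ∈ N) (hfg : N.FG) : N = ⊥ := by
  let dl : Γ → N →+ N := fun γ => AddMonoidHom.mk' (fun x => ⟨nab γ x, hst γ x x.2⟩) (by
    intro a b
    apply Subtype.ext
    simp)
  have hdl : ∀ γ (x : N), ((dl γ x : N) : H) = nab γ x := fun γ x => rfl
  have hfin : Module.Finite (MvPolynomial Γ κ) N := Module.Finite.iff_fg.mpr hfg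
  have hz : ∀ x : N, x = 0 := by
    refine low_flat hfin dl ?_ ?_ G.θ ?_ ?_
    · intro γ r x
      apply Subtype.ext
      rw [hdl]
      simp only [Submodule.coe_smul, Submodule.coe_add, hdl]
      exact HCon_nab_smul hC γ r x
    · intro γ γ' x
      apply Subtype.ext
      rw [hdl, hdl, hdl, hdl]
      exact hC.comm γ γ' x
    · intro x
      have h1 : (x : H) ∈ AddSubgroup.closure {y : H | ∃ z : ℤ,
          ∑ γ, (X γ : MvPolynomial Γ κ) • nab γ y = (C ((z : κ) - G.θ) : MvPolynomial Γ κ) • y} :=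
        AddSubgroup.closure_mono (fun y hy => hy.2) (HCon_MM_eig hG hC (hN x.2))
      have h2 := eig_sub nab (HCon_nab_smul hC) G.θ N hst x x.2 h1
      have h3 : ∃ h : (x : H) ∈ N, (⟨x, h⟩ : N) ∈ AddSubgroup.closure {y : N | ∃ z : ℤ,
          ∑ γ, (X γ : MvPolynomial Γ κ) • dl γ y = (C ((z : κ) - G.θ) : MvPolynomial Γ κ) • y} := by
        refine AddSubgroup.closure_induction (p := fun y _ => ∃ h : y ∈ N,
          (⟨y, h⟩ : N) ∈ AddSubgroup.closure {y : N | ∃ z : ℤ,
          ∑ γ, (X γ : MvPolynomial Γ κ) • dl γ y = (C ((z : κ) - G.θ) : MvPolynomial Γ κ) • y}) ?_ ?_ ?_ ?_ h2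
        · rintro y ⟨hy, z, hz⟩
          refine ⟨hy, AddSubgroup.subset_closure ⟨z, ?_⟩⟩
          apply Subtype.ext
          rw [Submodule.coe_sum]
          simpa only [Submodule.coe_smul, hdl] using hz
        · exact ⟨N.zero_mem, zero_mem _⟩
        · rintro y z _ _ ⟨hy, hy'⟩ ⟨hz, hz'⟩
          exact ⟨N.add_mem hy hz, add_mem hy' hz'⟩
        · rintro y _ ⟨hy, hy'⟩
          exact ⟨N.neg_mem hy, neg_mem hy'⟩
      obtain ⟨h, h4⟩ := h3
      exact h4
    · intro y hy
      apply Subtype.ext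
      exact hfl _ fun γ => by
        rw [← hdl, hy γ]
        rfl
  rw [eq_bot_iff]
  intro x hx
  have := hz ⟨x, hx⟩
  simpa using congrArg Subtype.val this

private theorem HCon_sub2 (hG : G.Ok0) (hC : Con G m dK nab c) (hθ : ∀ z : ℤ, G.θ ≠ z)
    (N : Submodule (MvPolynomial Γ κ) H) (hN : N ≤ MM G m c)
    (hst : ∀ γ, ∀ x ∈ N, nab γ x ∈ N) (hfg : N.FG) : N = ⊥ := by
  let dl : Γ → N →+ N := fun γ => AddMonoidHom.mk' (fun x => ⟨nab γ x, hst γ x x.2⟩) (by
    intro a b
    apply Subtype.ext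
    simp)
  have hdl : ∀ γ (x : N), ((dl γ x : N) : H) = nab γ x := fun γ x => rfl
  have hfin : Module.Finite (MvPolynomial Γ κ) N := Module.Finite.iff_fg.mpr hfg
  have hz : ∀ x : N, x = 0 := by
    refine low hfin dl ?_ ?_ G.θ hθ ?_
    · intro γ r x
      apply Subtype.ext
      rw [hdl]
      simp only [Submodule.coe_smul, Submodule.coe_add, hdl]
      exact HCon_nab_smul hC γ r x
    · intro γ γ' x
      apply Subtype.ext
      rw [hdl, hdl, hdl, hdl]
      exact hC.comm γ γ' x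
    · intro x
      have h1 : (x : H) ∈ AddSubgroup.closure {y : H | ∃ z : ℤ,
          ∑ γ, (X γ : MvPolynomial Γ κ) • nab γ y = (C ((z : κ) - G.θ) : MvPolynomial Γ κ) • y} :=
        AddSubgroup.closure_mono (fun y hy => hy.2) (HCon_MM_eig hG hC (hN x.2))
      have h2 := eig_sub nab (HCon_nab_smul hC) G.θ N hst x x.2 h1
      have h3 : ∃ h : (x : H) ∈ N, (⟨x, h⟩ : N) ∈ AddSubgroup.closure {y : N | ∃ z : ℤ,
          ∑ γ, (X γ : MvPolynomial Γ κ) • dl γ y = (C ((z : κ) - G.θ) : MvPolynomial Γ κ) • y} := by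
        refine AddSubgroup.closure_induction (p := fun y _ => ∃ h : y ∈ N,
          (⟨y, h⟩ : N) ∈ AddSubgroup.closure {y : N | ∃ z : ℤ,
          ∑ γ, (X γ : MvPolynomial Γ κ) • dl γ y = (C ((z : κ) - G.θ) : MvPolynomial Γ κ) • y}) ?_ ?_ ?_ ?_ h2
        · rintro y ⟨hy, z, hz⟩
          refine ⟨hy, AddSubgroup.subset_closure ⟨z, ?_⟩⟩
          apply Subtype.ext
          rw [Submodule.coe_sum]
          simpa only [Submodule.coe_smul, hdl] using hz
        · exact ⟨N.zero_mem, zero_mem _⟩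
        · rintro y z _ _ ⟨hy, hy'⟩ ⟨hz, hz'⟩
          exact ⟨N.add_mem hy hz, add_mem hy' hz'⟩
        · rintro y _ ⟨hy, hy'⟩
          exact ⟨N.neg_mem hy, neg_mem hy'⟩
      obtain ⟨h, h4⟩ := h3
      exact h4
  rw [eq_bot_iff]
  intro x hx
  have := hz ⟨x, hx⟩
  simpa using congrArg Subtype.val this

private theorem HCon_quot (hG : G.Ok0) (hC : Con G m dK nab c)
    (hneg : ∀ k, ∀ x ∈ G.Vd (m + 1) k, (∃ n : ℕ, -(G.θ + k) = n) → c x = 0) (N : Submodule K H) (hst : ∀ γ, ∀ x ∈ N, nab γ x ∈ N)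
    (hfg : ((MM G m c).map ((N.restrictScalars (MvPolynomial Γ κ)).mkQ)).FG) : N = ⊤ := by
  let N' : Submodule (MvPolynomial Γ κ) H := N.restrictScalars (MvPolynomial Γ κ)
  have hN' : ∀ x, x ∈ N' ↔ x ∈ N := fun x => Iff.rfl
  let Q : Submodule (MvPolynomial Γ κ) (H ⧸ N') := (MM G m c).map N'.mkQ
  have hQ : Q.FG := hfg
  have hwd : ∀ γ (x y : H), N'.mkQ x = N'.mkQ y → N'.mkQ (nab γ x) = N'.mkQ (nab γ y) := by
    intro γ x y h
    rw [Submodule.mkQ_apply, Submodule.mkQ_apply, Submodule.Quotient.eq] at h ⊢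
    rw [← map_sub]
    exact hst γ _ h
  have hsur : ∀ q : H ⧸ N', ∃ x : H, N'.mkQ x = q := fun q => N'.mkQ_surjective q
  choose s hs using hsur
  let dq : Γ → (H ⧸ N') →+ (H ⧸ N') := fun γ => AddMonoidHom.mk' (fun q => N'.mkQ (nab γ (s q))) (by
    intro a b
    show N'.mkQ (nab γ (s (a + b))) = N'.mkQ (nab γ (s a)) + N'.mkQ (nab γ (s b))
    rw [← map_add, ← map_add]
    apply hwd
    rw [hs, map_add, hs, hs])
  have hdq : ∀ γ (x : H), dq γ (N'.mkQ x) = N'.mkQ (nab γ x) := by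
    intro γ x
    show N'.mkQ (nab γ (s (N'.mkQ x))) = _
    exact hwd γ _ _ (hs _)
  have hdQ : ∀ γ, ∀ q ∈ Q, dq γ q ∈ Q := by
    rintro γ q ⟨x, hx, rfl⟩
    rw [hdq]
    exact Submodule.mem_map_of_mem (HCon_nab_MM hG hC γ hx)
  let dl : Γ → Q →+ Q := fun γ => AddMonoidHom.mk' (fun x => ⟨dq γ x, hdQ γ x x.2⟩) (by
    intro a b
    apply Subtype.ext
    simp)
  have hdl : ∀ γ (x : Q), ((dl γ x : Q) : H ⧸ N') = dq γ x := fun γ x => rfl
  have hfin : Module.Finite (MvPolynomial Γ κ) Q := Module.Finite.iff_fg.mpr hQ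
  have hz : ∀ x : Q, x = 0 := by
    refine low_neg hfin dl ?_ ?_ G.θ ?_ ?_
    · rintro γ r ⟨_, x, hx, rfl⟩
      apply Subtype.ext
      rw [hdl]
      simp only [Submodule.coe_smul, Submodule.coe_add, hdl]
      rw [← map_smul, hdq, HCon_nab_smul hC, map_add, map_smul, map_smul, hdq]
    · rintro γ γ' ⟨_, x, hx, rfl⟩
      apply Subtype.ext
      rw [hdl, hdl, hdl, hdl]
      simp only [hdq]
      rw [hC.comm γ γ' x]
    · rintro ⟨_, x, hx, rfl⟩
      have h2 := HCon_MM_eig hG hC hx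
      have h3 : ∃ h : N'.mkQ x ∈ Q, (⟨N'.mkQ x, h⟩ : Q) ∈ AddSubgroup.closure {y : Q | ∃ z : ℤ,
          ∑ γ, (X γ : MvPolynomial Γ κ) • dl γ y = (C ((z : κ) - G.θ) : MvPolynomial Γ κ) • y} := by
        refine AddSubgroup.closure_induction (p := fun y _ => ∃ h : N'.mkQ y ∈ Q,
          (⟨N'.mkQ y, h⟩ : Q) ∈ AddSubgroup.closure {y : Q | ∃ z : ℤ,
          ∑ γ, (X γ : MvPolynomial Γ κ) • dl γ y = (C ((z : κ) - G.θ) : MvPolynomial Γ κ) • y}) ?_ ?_ ?_ ?_ h2
        · rintro y ⟨hy, z, hz⟩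
          refine ⟨Submodule.mem_map_of_mem hy, AddSubgroup.subset_closure ⟨z, ?_⟩⟩
          apply Subtype.ext
          rw [Submodule.coe_sum]
          simp only [Submodule.coe_smul, hdl, hdq]
          rw [← map_smul, ← hz, map_sum]
          simp only [map_smul]
        · refine ⟨by rw [map_zero]; exact Q.zero_mem, ?_⟩
          have : (⟨N'.mkQ 0, by rw [map_zero]; exact Q.zero_mem⟩ : Q) = 0 := Subtype.ext (map_zero _)
          rw [this]
          exact zero_mem _
        · rintro y z _ _ ⟨hy, hy'⟩ ⟨hz, hz'⟩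
          refine ⟨by rw [map_add]; exact Q.add_mem hy hz, ?_⟩
          have : (⟨N'.mkQ (y + z), by rw [map_add]; exact Q.add_mem hy hz⟩ : Q) =
              ⟨N'.mkQ y, hy⟩ + ⟨N'.mkQ z, hz⟩ := Subtype.ext (map_add _ _ _)
          rw [this]
          exact add_mem hy' hz'
        · rintro y _ ⟨hy, hy'⟩
          refine ⟨by rw [map_neg]; exact Q.neg_mem hy, ?_⟩
          have : (⟨N'.mkQ (-y), by rw [map_neg]; exact Q.neg_mem hy⟩ : Q) =
              -⟨N'.mkQ y, hy⟩ := Subtype.ext (map_neg _ _)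
          rw [this]
          exact neg_mem hy'
      obtain ⟨h, h4⟩ := h3
      exact h4
    · rw [eq_top_iff]
      rintro ⟨_, x, hx, rfl⟩ _
      have h5 : ∃ h : N'.mkQ x ∈ Q, (⟨N'.mkQ x, h⟩ : Q) ∈
          Submodule.span (MvPolynomial Γ κ) {y : Q | ∃ z : ℤ, (∀ n : ℕ, (z : κ) - G.θ ≠ n) ∧
            ∑ γ, (X γ : MvPolynomial Γ κ) • dl γ y = (C ((z : κ) - G.θ) : MvPolynomial Γ κ) • y} := by
        refine Submodule.span_induction (p := fun x _ => ∃ h : N'.mkQ x ∈ Q, (⟨N'.mkQ x, h⟩ : Q) ∈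
          Submodule.span (MvPolynomial Γ κ) {y : Q | ∃ z : ℤ, (∀ n : ℕ, (z : κ) - G.θ ≠ n) ∧
            ∑ γ, (X γ : MvPolynomial Γ κ) • dl γ y = (C ((z : κ) - G.θ) : MvPolynomial Γ κ) • y}) ?_ ?_ ?_ ?_ hx
        · rintro y ⟨k, v, hv, rfl⟩
          have hcv : c v ∈ MM G m c := Submodule.subset_span ⟨k, v, hv, rfl⟩
          refine ⟨Submodule.mem_map_of_mem hcv, ?_⟩
          by_cases hn : ∃ n : ℕ, -(G.θ + k) = n
          · have h6 : (⟨N'.mkQ (c v), Submodule.mem_map_of_mem hcv⟩ : Q) = 0 := by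
              apply Subtype.ext
              change N'.mkQ (c v) = 0
              rw [hneg k v hv hn, map_zero]
            rw [h6]
            exact Submodule.zero_mem _
          · apply Submodule.subset_span
            refine ⟨-(k : ℤ), fun n h => hn ⟨n, ?_⟩, ?_⟩
            · rw [← h]
              push_cast
              ring
            · apply Subtype.ext
              rw [Submodule.coe_sum]
              simp only [Submodule.coe_smul, hdl, hdq]
              have heul := hC.eul k v hv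
              simp only [algebraMap_smul] at heul
              simp only [← map_smul, ← map_sum]
              congr 1
              have h7 : ∑ γ, (X γ : MvPolynomial Γ κ) • nab γ (c v) =
                  ∑ γ, (X γ : MvPolynomial Γ κ) • c (G.mul γ v) :=
                Finset.sum_congr rfl fun γ _ => by rw [hC.nabc γ k v hv]
              rw [h7, heul, ← neg_smul, ← C_neg]
              congr 2
              push_cast
              ring
        · refine ⟨by rw [map_zero]; exact Q.zero_mem, ?_⟩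
          have : (⟨N'.mkQ 0, by rw [map_zero]; exact Q.zero_mem⟩ : Q) = 0 := Subtype.ext (map_zero _)
          rw [this]
          exact Submodule.zero_mem _
        · rintro y z _ _ ⟨hy, hy'⟩ ⟨hz, hz'⟩
          refine ⟨by rw [map_add]; exact Q.add_mem hy hz, ?_⟩
          have : (⟨N'.mkQ (y + z), by rw [map_add]; exact Q.add_mem hy hz⟩ : Q) =
              ⟨N'.mkQ y, hy⟩ + ⟨N'.mkQ z, hz⟩ := Subtype.ext (map_add _ _ _)
          rw [this]
          exact Submodule.add_mem _ hy' hz'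
        · rintro r y _ ⟨hy, hy'⟩
          refine ⟨by rw [map_smul]; exact Q.smul_mem r hy, ?_⟩
          have : (⟨N'.mkQ (r • y), by rw [map_smul]; exact Q.smul_mem r hy⟩ : Q) =
              r • ⟨N'.mkQ y, hy⟩ := Subtype.ext (map_smul _ _ _)
          rw [this]
          exact Submodule.smul_mem _ r hy'
      obtain ⟨h, h6⟩ := h5
      exact h6
  have hle : ∀ x ∈ MM G m c, x ∈ N := by
    intro x hx
    have h1 := hz ⟨N'.mkQ x, Submodule.mem_map_of_mem hx⟩
    have h2 : N'.mkQ x = 0 := congrArg Subtype.val h1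
    rw [Submodule.mkQ_apply, Submodule.Quotient.mk_eq_zero] at h2
    exact h2
  rw [eq_top_iff]
  intro h _
  have h1 := hC.span h
  refine (Submodule.span_le.mpr ?_) h1
  rintro y ⟨k, x, hx, rfl⟩
  exact hle _ (Submodule.subset_span ⟨k, x, hx, rfl⟩)

theorem conR_of_flat (hG : G.Ok0) (hC : Con G m dK nab c)
    (hneg : ∀ k, ∀ x ∈ G.Vd (m + 1) k, (∃ n : ℕ, -(G.θ + k) = n) → c x = 0)
    (hfl : ∀ x : H, (∀ γ, nab γ x = 0) → x = 0) : ConR G m dK nab c where
  toCon := hC
  sub N hN hst hfg := HCon_sub hG hC hfl N hN hst hfg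
  quot N hst hfg := HCon_quot hG hC hneg N hst hfg

/-- The case of a not integral `θ`. -/
theorem conR_of_ne (hG : G.Ok0) (hC : Con G m dK nab c) (hθ : ∀ z : ℤ, G.θ ≠ z) : ConR G m dK nab c where
  toCon := hC
  sub N hN hst hfg := HCon_sub2 hG hC hθ N hN hst hfg
  quot N hst hfg := HCon_quot hG hC (fun k x _ h => by
    obtain ⟨n, hn⟩ := h
    exact absurd (by
      have h2 : G.θ = -((n : κ) + k) := by
        rw [← hn]
        ring
      rw [h2]
      push_cast
      ring) (hθ (-((n : ℤ) + k)))) N hst hfg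

end main

end MPadcHA
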