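import Pool.Agent.Lib.MP_adc574_ag_DC.ABase

/-!
# HA: the abstract part for all exponents (also integral exponents): definitions

`Cx.Ok0`: as `Cx.Ok` (stream DC), without the condition that `θ` is not an integer. `ConR`: as `Con`, with the two
conditions on finitely generated stable submodules and quotients which follow from that condition in the stream DC, and
from the absence of flat vectors for integral `θ` (file HCon).
-/

set_option autoImplicit false
set_option linter.unusedSectionVars false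

namespace MPadcDC

open MvPolynomial TensorProduct

universe u

section

variable {κ : Type u} [Field κ] {Γ : Type} [Fintype Γ] {V : Type u} [AddCommGroup V] [Module κ V]

/-- The relations. -/
structure Cx.Ok0 (G : Cx κ Γ V) : Prop where
  fg : ∀ q k, (G.Vd q k).FG
  d_mem : ∀ q k, ∀ x ∈ G.Vd q k, G.d x ∈ G.Vd (q + 1) k
  mul_mem : ∀ γ q k, ∀ x ∈ G.Vd q k, G.mul γ x ∈ G.Vd q (k + 1)
  wd_mem : ∀ γ q k, ∀ x ∈ G.Vd q k, G.wd γ x ∈ G.Vd (q + 1) (k + 1)
  io_mem : ∀ q k, ∀ x ∈ G.Vd (q + 1) k, G.io x ∈ G.Vd q k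
  d_d : ∀ x, G.d (G.d x) = 0
  d_mul : ∀ γ x, G.d (G.mul γ x) = G.mul γ (G.d x) + G.wd γ x
  d_wd : ∀ γ x, G.d (G.wd γ x) = - G.wd γ (G.d x)
  mul_mul : ∀ γ γ' x, G.mul γ (G.mul γ' x) = G.mul γ' (G.mul γ x)
  mul_wd : ∀ γ γ' x, G.mul γ (G.wd γ' x) = G.wd γ' (G.mul γ x)
  wd_wd : ∀ γ γ' x, G.wd γ (G.wd γ' x) = - G.wd γ' (G.wd γ x)
  io_wd : ∀ γ x, G.io (G.wd γ x) + G.wd γ (G.io x) = G.e • G.mul γ x
  cartan : ∀ q k, ∀ x ∈ G.Vd q k, G.io (G.d x) + G.d (G.io x) = (G.e * (G.θ + k)) • x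
  e_ne : G.e ≠ 0
  /-- the forms of different weights are independent -/
  indep : ∀ q, iSupIndep (G.Vd q)

theorem Cx.Ok.ok0 {G : Cx κ Γ V} (h : G.Ok) : G.Ok0 :=
  ⟨h.fg, h.d_mem, h.mul_mem, h.wd_mem, h.io_mem, h.d_d, h.d_mul, h.d_wd, h.mul_mul, h.mul_wd, h.wd_wd, h.io_wd,
    h.cartan, h.e_ne, h.indep⟩

end

end MPadcDC

namespace MPadcHA

open MvPolynomial TensorProduct MPadcDC

universe u

section

variable {κ : Type u} [Field κ] {Γ : Type} [Fintype Γ] {V : Type u} [AddCommGroup V] [Module κ V]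
  {K : Type u} [Field K] [Algebra (MvPolynomial Γ κ) K] {H : Type u} [AddCommGroup H] [Module K H]
  [Module (MvPolynomial Γ κ) H] [IsScalarTower (MvPolynomial Γ κ) K H]

/-- The space `H` over `K = Frac R` with the connection `nab`, generated by the classes `c x` of the forms of degree
`m + 1`, without finitely generated stable submodules and quotients of the lattice `MM`. -/
structure ConR (G : Cx κ Γ V) (m : ℕ) (dK : Γ → Derivation ℤ K K) (nab : Γ → H →+ H) (c : V →+ H) : Prop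
    extends Con G m dK nab c where
  sub : ∀ N : Submodule (MvPolynomial Γ κ) H, N ≤ MM G m c → (∀ γ, ∀ x ∈ N, nab γ x ∈ N) → N.FG → N = ⊥
  quot : ∀ N : Submodule K H, (∀ γ, ∀ x ∈ N, nab γ x ∈ N) →
    ((MM G m c).map ((N.restrictScalars (MvPolynomial Γ κ)).mkQ)).FG → N = ⊤

end

end MPadcHA
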